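import Pool.Agent.Helper96.VF.GoalsL

/-!
# Project VF, packet DBLB
-/

set_option autoImplicit false

namespace Pool.Agent.Helper15.VF

open Pool.Agent.Helper96.VF

theorem mem_Cop {n m : ℕ} : m ∈ Cop n ↔ 1 ≤ m ∧ m ≤ n ∧ Nat.Coprime m 6 := by
  unfold Cop
  rw [Finset.mem_filter, Finset.mem_Icc, and_assoc]

theorem le_div_comm {n m t : ℕ} (hm : 0 < m) (ht : 0 < t) : t ≤ n / m ↔ m ≤ n / t := by
  rw [Nat.le_div_iff_mul_le hm, Nat.le_div_iff_mul_le ht, mul_comm]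

open Classical in
theorem gDBLB : DBLB := by
  intro p q r s n P hPar hn hP
  obtain ⟨hp, hpq, hq4, hr, hrs, hs3, hsq⟩ := hPar
  have hal : ∀ x, 0 < al p r x := fun x =>
    lt_of_lt_of_le (Nat.mul_pos hp (by positivity)) (le_max_left _ _)
  have hbe : ∀ x, 0 < be q s x := fun x =>
    lt_min (Nat.mul_pos (hp.trans hpq) (by positivity)) (Nat.mul_pos (hr.trans hrs) (by positivity))
  have key : ((Cop n).filter (fun m => (∃ j : ℕ, p * 4 ^ j ≤ n / m ∧ n / m < q * 4 ^ j) ∧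
      (∃ b : ℕ, r * 3 ^ b ≤ n / m ∧ n / m < s * 3 ^ b))) =
      P.biUnion (fun x => Cop (n / al p r x) \ Cop (n / be q s x)) := by
    ext m
    rw [Finset.mem_filter, Finset.mem_biUnion]
    constructor
    · rintro ⟨hm, ⟨j, hj1, hj2⟩, b, hb1, hb2⟩
      rw [mem_Cop] at hm
      have h1 : al p r (j, b) ≤ n / m := max_le hj1 hb1
      have h2 : n / m < be q s (j, b) := lt_min hj2 hb2
      refine ⟨(j, b), (hP _).2 ⟨h1.trans_lt h2, h1.trans (Nat.div_le_self _ _)⟩, ?_⟩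
      rw [Finset.mem_sdiff, mem_Cop, mem_Cop]
      refine ⟨⟨hm.1, (le_div_comm hm.1 (hal _)).1 h1, hm.2.2⟩, fun h => ?_⟩
      exact absurd ((le_div_comm hm.1 (hbe _)).2 h.2.1) (not_le.2 h2)
    · rintro ⟨x, hx, hm⟩
      rw [Finset.mem_sdiff, mem_Cop, mem_Cop] at hm
      obtain ⟨⟨hm1, hm2, hm3⟩, hm4⟩ := hm
      have h1 : al p r x ≤ n / m := (le_div_comm hm1 (hal _)).2 hm2
      have h2 : n / m < be q s x := by
        by_contra h
        exact hm4 ⟨hm1, (le_div_comm hm1 (hbe _)).1 (not_lt.1 h), hm3⟩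
      refine ⟨mem_Cop.2 ⟨hm1, hm2.trans (Nat.div_le_self _ _), hm3⟩,
        ⟨x.1, (le_max_left _ _).trans h1, h2.trans_le (min_le_left _ _)⟩,
        x.2, (le_max_right _ _).trans h1, h2.trans_le (min_le_right _ _)⟩
  have uniq : ∀ x x' : ℕ × ℕ, ∀ y : ℕ, al p r x ≤ y → y < be q s x → al p r x' ≤ y →
      y < be q s x' → x.1 ≤ x'.1 ∧ x.2 ≤ x'.2 := by
    intro x x' y h1 h2 h3 h4
    constructor
    · by_contra h
      have h5 : x'.1 + 1 ≤ x.1 := by omega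
      have h6 : 4 ^ (x'.1 + 1) ≤ 4 ^ x.1 := Nat.pow_le_pow_right (by norm_num) h5
      have h7 : p * 4 ^ x.1 ≤ y := (le_max_left _ _).trans h1
      have h8 : y < q * 4 ^ x'.1 := h4.trans_le (min_le_left _ _)
      have h9 : p * 4 ^ (x'.1 + 1) ≤ p * 4 ^ x.1 := Nat.mul_le_mul_left _ h6
      have h10 : q * 4 ^ x'.1 ≤ 4 * p * 4 ^ x'.1 := Nat.mul_le_mul_right _ hq4
      have h11 : p * 4 ^ (x'.1 + 1) = 4 * p * 4 ^ x'.1 := by ring
      omega
    · by_contra h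
      have h5 : x'.2 + 1 ≤ x.2 := by omega
      have h6 : 3 ^ (x'.2 + 1) ≤ 3 ^ x.2 := Nat.pow_le_pow_right (by norm_num) h5
      have h7 : r * 3 ^ x.2 ≤ y := (le_max_right _ _).trans h1
      have h8 : y < s * 3 ^ x'.2 := h4.trans_le (min_le_right _ _)
      have h9 : r * 3 ^ (x'.2 + 1) ≤ r * 3 ^ x.2 := Nat.mul_le_mul_left _ h6
      have h10 : s * 3 ^ x'.2 ≤ 3 * r * 3 ^ x'.2 := Nat.mul_le_mul_right _ hs3
      have h11 : r * 3 ^ (x'.2 + 1) = 3 * r * 3 ^ x'.2 := by ring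
      omega
  have hdis : ∀ x ∈ P, ∀ x' ∈ P, x ≠ x' →
      Disjoint (Cop (n / al p r x) \ Cop (n / be q s x))
        (Cop (n / al p r x') \ Cop (n / be q s x')) := by
    intro x _ x' _ hne
    rw [Finset.disjoint_left]
    intro m hm hm'
    have aux : ∀ z : ℕ × ℕ, m ∈ Cop (n / al p r z) \ Cop (n / be q s z) →
        al p r z ≤ n / m ∧ n / m < be q s z := by
      intro z hz
      rw [Finset.mem_sdiff, mem_Cop, mem_Cop] at hz
      obtain ⟨⟨hm1, hm2, hm3⟩, hm4⟩ := hz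
      refine ⟨(le_div_comm hm1 (hal _)).2 hm2, ?_⟩
      by_contra h
      exact hm4 ⟨hm1, (le_div_comm hm1 (hbe _)).1 (not_lt.1 h), hm3⟩
    obtain ⟨a1, a2⟩ := aux x hm
    obtain ⟨b1, b2⟩ := aux x' hm'
    have u1 := uniq x x' _ a1 a2 b1 b2
    have u2 := uniq x' x _ b1 b2 a1 a2
    exact hne (Prod.ext (le_antisymm u1.1 u2.1) (le_antisymm u1.2 u2.2))
  rw [key, Finset.card_biUnion hdis, Nat.cast_sum]
  refine Finset.sum_congr rfl fun x hx => ?_
  have hlt := ((hP x).1 hx).1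
  have hsub : Cop (n / be q s x) ⊆ Cop (n / al p r x) := by
    intro m hm
    rw [mem_Cop] at hm ⊢
    exact ⟨hm.1, hm.2.1.trans (Nat.div_le_div_left hlt.le (hal _)), hm.2.2⟩
  rw [Finset.card_sdiff_of_subset hsub, Nat.cast_sub (Finset.card_le_card hsub)]

end Pool.Agent.Helper15.VF
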